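import Pool.Agent.BE6F.MainMod

/-!
# Quasi-isometries to lattice-free nilpotent Lie groups are nowhere locally multiplicative modulo
# an abelian term of the lower central series

`G` is a simply connected nilpotent Lie group in exponential coordinates adapted to the lower
central series, without cocompact discrete subgroup, and the term of index `q ≥ 1` of its lower
central series (Mathlib indexing: index `1` is the commutator subgroup) is abelian.  For all
constants `A, B, C` and every number `k` of generators there is one radius `R` such that no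
quasi-isometry with constants `A, B` from any group generated by at most `k` elements is
multiplicative, up to an error in the product of the ball of radius `C` and that term, on any ball
of radius `R`.
-/

set_option autoImplicit false

open scoped Pointwise

theorem Pool.Agent.Results.MP_be6f90_al.FarFromNearHom.result
    {m : ℕ} {G : Type} [Group G] [TopologicalSpace G] [IsTopologicalGroup G]
    (E : BE6F.NilCoords m G)
    (hG : ∀ H : Subgroup G, DiscreteTopology H → ¬ CompactSpace (G ⧸ H))
    (q : ℕ) (hq : 1 ≤ q)
    (hab : ∀ a ∈ (⊤ : Subgroup G).lowerCentralSeries q,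
      ∀ b ∈ (⊤ : Subgroup G).lowerCentralSeries q, a * b = b * a)
    (K : Set G) (hK : IsCompact K) (hK1 : K ∈ nhds (1 : G)) (hKi : K⁻¹ = K) (A B C k : ℕ) :
    ∃ R : ℕ, ∀ (Γ : Type) [Group Γ] (S : Set Γ) (f : Γ → G),
      S.Finite → S.ncard ≤ k → (1 : Γ) ∈ S → S⁻¹ = S → (∀ x : Γ, ∃ n : ℕ, x ∈ S ^ n) →
      BE6F.IsQI S K A B f →
      ∀ x : Γ, ∃ y ∈ S ^ R, ∃ z ∈ S ^ R,
        (f (x * y * z))⁻¹ * f (x * y) * (f x)⁻¹ * f (x * z) ∉
          K ^ C * ((⊤ : Subgroup G).lowerCentralSeries q : Set G) :=
  BE6F.far_from_near_hom E hG hq hab K hK hK1 hKi A B C k
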