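import Pool.Agent.BE6F.Near

/-!
# Quasi-isometries to lattice-free nilpotent groups are far from maps that are homomorphisms
# modulo an abelian term of the lower central series

`G` is a simply connected nilpotent Lie group of nilpotency class at most `c` in exponential
coordinates adapted to the lower central series, without cocompact discrete subgroup, and the term
of index `q ≥ 1` of its lower central series (Mathlib indexing: index `1` is the commutator
subgroup) is abelian.  If `f : Γ → G` is a quasi-isometry, `F : Γ → G` is any map which is a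
homomorphism modulo that term, and `ρ x` bounds the distance from `f x` to `F x`, then the averages
of `ρ ^ (c - 1)` over the balls of radius `n` of `Γ` are not `o(n)`.
-/

set_option autoImplicit false

open scoped Pointwise

theorem Pool.Agent.Results.MP_be6f90_al.MomentOfNearHom.result
    {m : ℕ} {G : Type} [Group G] [TopologicalSpace G] [IsTopologicalGroup G]
    (E : BE6F.NilCoords m G)
    (hG : ∀ H : Subgroup G, DiscreteTopology H → ¬ CompactSpace (G ⧸ H))
    (c : ℕ) (hc : 2 ≤ c) (hclass : (⊤ : Subgroup G).lowerCentralSeries c = ⊥)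
    (q : ℕ) (hq : 1 ≤ q)
    (hab : ∀ a ∈ (⊤ : Subgroup G).lowerCentralSeries q,
      ∀ b ∈ (⊤ : Subgroup G).lowerCentralSeries q, a * b = b * a)
    (Γ : Type) [Group Γ] (S : Set Γ) (K : Set G) (f : Γ → G) (A B : ℕ)
    (hS : S.Finite) (h1 : (1 : Γ) ∈ S) (hSi : S⁻¹ = S) (hgen : ∀ x : Γ, ∃ n : ℕ, x ∈ S ^ n)
    (hK : IsCompact K) (hK1 : K ∈ nhds (1 : G)) (hKi : K⁻¹ = K)
    (hf : BE6F.IsQI S K A B f)
    (F : Γ → G)
    (hF : ∀ x y : Γ, (F (x * y))⁻¹ * F x * F y ∈ (⊤ : Subgroup G).lowerCentralSeries q)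
    (ρ : Γ → ℕ) (hρ : ∀ x : Γ, (f x)⁻¹ * F x ∈ K ^ ρ x) :
    ¬ Filter.Tendsto
      (fun n : ℕ => (∑ᶠ x ∈ S ^ n, (ρ x : ℝ) ^ (c - 1)) / (n * (S ^ n).ncard))
      Filter.atTop (nhds 0) := by
  intro hlim
  have hw : ∀ j, E.w j ≤ (c - 1) + 1 := by
    intro j
    by_contra hj
    have h2 : E.e.symm (Pi.single j 1) ∈ (⊤ : Subgroup G).lowerCentralSeries c := by
      rw [E.lcs]
      intro i hi
      rw [Homeomorph.apply_symm_apply, Pi.single_eq_of_ne]
      intro hij
      rw [hij] at hi
      omega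
    rw [hclass, Subgroup.mem_bot] at h2
    have h3 : (Pi.single j 1 : Fin m → ℝ) = 0 := by
      rw [← E.e_one, ← h2]; simp
    have h4 := congrFun h3 j
    simp at h4
  obtain ⟨H, hH1, hH2⟩ := E.lattice_of_near_hom hS h1 hSi hgen hK hK1 hKi hf (c - 1) (by omega)
    hw (i0 := q + 1) (by omega)
    (fun a b ha hb => hab a ((E.lv_succ_iff q a).mp ha) b ((E.lv_succ_iff q b).mp hb))
    F (fun x y => (E.lv_succ_iff q _).mpr (hF x y)) ρ hρ (by
      refine hlim.congr (fun n => ?_)
      rw [finsum_mem_eq_finite_toFinset_sum _ (BE6F.finite_pow hS n),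
        Set.ncard_eq_toFinset_card (S ^ n) (BE6F.finite_pow hS n)]
      rfl)
  exact hG H hH1 hH2
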